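import Mathlib

set_option autoImplicit false

namespace Pool.Agent.H697R2.Part

open Finset

/-! ### A linear recursion on a cyclic group of order `3 k + 1` -/

section cyc

variable {k : ℕ}

/-- positions: the cyclic group of order `3 k + 1` -/
abbrev Z (k : ℕ) := ZMod (3 * k + 1)

instance : NeZero (3 * k + 1) := ⟨by omega⟩

theorem three_k : ((3 * k : ℕ) : Z k) = -1 := by
  have h : ((3 * k + 1 : ℕ) : Z k) = 0 := ZMod.natCast_self _
  push_cast at h ⊢
  linear_combination h

theorem const_of_shift {f : Z k → ℤ} (h : ∀ s, f s = f (s - 3)) : ∀ s, f s = f 0 := by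
  have h1 : ∀ (i : ℕ) (s : Z k), f s = f (s - 3 * i) := by
    intro i
    induction i with
    | zero => intro s; simp
    | succ i ih =>
      intro s
      rw [ih s, h (s - 3 * i)]
      congr 1
      push_cast
      ring
  have h2 : ∀ s : Z k, f s = f (s + 1) := by
    intro s
    rw [h1 k s]
    congr 1
    have := three_k (k := k)
    push_cast at this
    rw [this]
    ring
  have h3 : ∀ (i : ℕ) (s : Z k), f s = f (s + i) := by
    intro i
    induction i with
    | zero => intro s; simp
    | succ i ih =>
      intro s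
      rw [ih s, h2 (s + i)]
      congr 1
      push_cast
      ring
  intro s
  have h4 := h3 s.val 0
  rw [h4]
  simp

theorem inj3 {f : Z k → ℤ} (h : ∀ s, f s + f (s - 1) + f (s - 2) = 0) : ∀ s, f s = 0 := by
  have h1 : ∀ s, f s = f (s - 3) := by
    intro s
    have a := h s
    have b := h (s - 1)
    have e1 : s - 1 - 1 = s - 2 := by ring
    have e2 : s - 1 - 2 = s - 3 := by ring
    rw [e1, e2] at b
    linarith
  have h2 := const_of_shift h1
  intro s
  have a := h s
  rw [h2 s, h2 (s - 1), h2 (s - 2)] at a
  rw [h2 s]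
  linarith

/-- indicator of `t - p ∈ {1, 4, 7, …}` -/
def w (p t : Z k) : ℤ := if (t - p).val % 3 = 1 then 1 else 0

theorem val_sub_one {r : Z k} (h : r ≠ 0) : (r - 1).val = r.val - 1 := by
  have h1 : r.val ≠ 0 := by
    rwa [Ne, ZMod.val_eq_zero]
  have h2 := r.val_lt
  have h3 : r - 1 = ((r.val - 1 : ℕ) : Z k) := by
    rw [Nat.cast_sub (by omega)]
    simp
  rw [h3, ZMod.val_natCast, Nat.mod_eq_of_lt (by omega)]

theorem val_neg_one' : (-1 : Z k).val = 3 * k := by
  rw [← three_k, ZMod.val_natCast, Nat.mod_eq_of_lt (by omega)]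

theorem w_identity (p s : Z k) :
    (if s = p then 1 else 0) + w p s + w p (s - 1) + w p (s - 2) = (1 : ℤ) := by
  unfold w
  have e1 : s - 1 - p = (s - p) - 1 := by ring
  have e2 : s - 2 - p = (s - p) - 1 - 1 := by ring
  rw [e1, e2]
  have e3 : (s = p) ↔ s - p = 0 := by rw [sub_eq_zero]
  simp only [e3]
  generalize s - p = r
  have hr := r.val_lt
  by_cases h0 : r = 0
  · subst h0
    have a1 : (0 - 1 : Z k).val = 3 * k := by rw [zero_sub]; exact val_neg_one'
    by_cases hk : k = 0
    · subst hk
      have a2 : ∀ x : Z 0, x.val = 0 := by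
        intro x
        have := x.val_lt
        omega
      simp [a2]
    · have a2 : (0 - 1 - 1 : Z k).val = 3 * k - 1 := by
        rw [val_sub_one, a1]
        intro h
        rw [← ZMod.val_eq_zero, a1] at h
        omega
      rw [a1, a2]
      simp
      omega
  · have a1 := val_sub_one h0
    have h0' : r.val ≠ 0 := by rwa [Ne, ZMod.val_eq_zero]
    by_cases h1 : r - 1 = 0
    · have b1 : (r - 1).val = 0 := by rw [h1]; simp
      have a2 : (r - 1 - 1 : Z k).val = 3 * k := by rw [h1, zero_sub]; exact val_neg_one'
      rw [a2]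
      have : r.val = 1 := by omega
      rw [b1, this]
      simp [h0]
    · have a2 := val_sub_one h1
      have h1' : (r - 1).val ≠ 0 := by rwa [Ne, ZMod.val_eq_zero]
      rw [a2]
      rw [a1] at h1' ⊢
      simp only [h0, if_false]
      have : r.val % 3 = 0 ∨ r.val % 3 = 1 ∨ r.val % 3 = 2 := by omega
      rcases this with h | h | h
      · have c1 : (r.val - 1) % 3 = 2 := by omega
        have c2 : (r.val - 1 - 1) % 3 = 1 := by omega
        simp [h, c1, c2]
      · have c1 : (r.val - 1) % 3 = 0 := by omega
        have c2 : (r.val - 1 - 1) % 3 = 2 := by omega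
        simp [h, c1, c2]
      · have c1 : (r.val - 1) % 3 = 1 := by omega
        have c2 : (r.val - 1 - 1) % 3 = 0 := by omega
        simp [h, c1, c2]

/-- The key computation: the multiplicities of a cyclic sequence which, after removal of any
element, is a sum of consecutive triples. -/
theorem all_one (c : Z k → ℤ) (opt : Z k → Prop) 
    (hc1 : ∀ s, ¬ opt s → c s ≤ 1) (hopt : ∀ s, opt s → ¬ opt (s + 1))
    (hy : ∀ p, 0 < c p → ∃ y : Z k → ℤ, (∀ t, 0 ≤ y t) ∧
      ∀ s, c s = (if s = p then 1 else 0) + (y s + y (s - 1) + y (s - 2)))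
    (t₁ : Z k) (h1 : 0 < c t₁) (h2 : 0 < c (t₁ + 1)) : ∀ s, c s = 1 := by
  choose y hy0 hy1 using hy
  -- the function z does not depend on p
  have hz : ∀ p hp p' hp' t, y p hp t - w p t = y p' hp' t - w p' t := by
    intro p hp p' hp'
    have := inj3 (f := fun t => (y p hp t - w p t) - (y p' hp' t - w p' t)) ?_
    · intro t
      have := this t
      linarith
    · intro s
      have a1 := hy1 p hp s
      have a2 := hy1 p' hp' s
      have b1 := w_identity p s
      have b2 := w_identity p' s
      linarith
  let z : Z k → ℤ := fun t => y t₁ h1 t - w t₁ t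
  have hcz : ∀ s, c s = 1 + (z s + z (s - 1) + z (s - 2)) := by
    intro s
    have a1 := hy1 t₁ h1 s
    have b1 := w_identity t₁ s
    simp only [z]
    linarith
  have hzlow : ∀ t, 0 ≤ z t := by
    intro t
    by_contra hneg
    push Not at hneg
    have key : ∀ p, 0 < c p → (t - p).val % 3 = 1 := by
      intro p hp
      by_contra hne
      have e : z t = y p hp t - w p t := hz t₁ h1 p hp t
      have : w p t = 0 := by simp [w, hne]
      have := hy0 p hp t
      omega
    have k1 := key _ h1
    have k2 := key _ h2
    have e1 : t - (t₁ + 1) = (t - t₁) - 1 := by ring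
    rw [e1, val_sub_one] at k2
    · omega
    · intro h
      rw [h] at k1
      simp at k1
  have hz0 : ∀ t, z t = 0 := by
    intro t
    by_cases ho : opt t
    · have h3 := hc1 (t + 1) (hopt t ho)
      have h4 := hcz (t + 1)
      have e1 : t + 1 - 1 = t := by ring
      rw [e1] at h4
      have := hzlow t
      have := hzlow (t + 1)
      have := hzlow (t + 1 - 2)
      omega
    · have h3 := hc1 t ho
      have h4 := hcz t
      have := hzlow t
      have := hzlow (t - 1)
      have := hzlow (t - 2)
      omega
  intro s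
  rw [hcz, hz0, hz0, hz0]
  norm_num

end cyc

end Pool.Agent.H697R2.Part
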