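import Mathlib
import Pool.Agent.H697R2.Part.Core

set_option autoImplicit false

namespace Pool.Agent.H697R2.Part

open Finset

section graph

variable {k : ℕ} {V : Type*} [DecidableEq V] (H : SimpleGraph V) (pos : V → Z k)

theorem natCast_ne_zero' {j : ℕ} (h0 : 0 < j) (h : j < 3 * k + 1) : (j : Z k) ≠ 0 := by
  intro e
  have := congrArg ZMod.val e
  rw [ZMod.val_natCast, Nat.mod_eq_of_lt h] at this
  simp at this
  omega

theorem card_filter_pos {K : Finset V} {t : Z k} (hk : 1 ≤ k) (h3 : K.card = 3)
    (hK : K.image pos = {t, t + 1, t + 2}) (s : Z k) :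
    ((K.filter (fun u => pos u = s)).card : ℤ) =
      (if t = s then 1 else 0) + ((if t = s - 1 then 1 else 0) + (if t = s - 2 then 1 else 0)) := by
  have d1 : (1 : Z k) ≠ 0 := by
    have := natCast_ne_zero' (k := k) (j := 1) (by omega) (by omega)
    simpa using this
  have d2 : (2 : Z k) ≠ 0 := by
    have := natCast_ne_zero' (k := k) (j := 2) (by omega) (by omega)
    simpa using this
  have e1 : t ≠ t + 1 := by
    intro h; apply d1; linear_combination -h
  have e2 : t ≠ t + 2 := by
    intro h; apply d2; linear_combination -h
  have e3 : t + 1 ≠ t + 2 := by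
    intro h; apply d1; linear_combination -h
  have hinj : Set.InjOn pos K := by
    rw [← Finset.card_image_iff, hK, h3]
    rw [Finset.card_insert_of_notMem, Finset.card_insert_of_notMem, Finset.card_singleton]
    · simpa using e3
    · simp [e1, e2]
  have h1 : (K.filter (fun u => pos u = s)).card = ((K.image pos).filter (fun x => x = s)).card := by
    rw [Finset.filter_image, Finset.card_image_of_injOn]
    exact hinj.mono (Finset.coe_subset.2 (Finset.filter_subset _ _))
  rw [h1, hK]
  have a1 : (t = s - 1) ↔ t + 1 = s := by constructor <;> intro h <;> linear_combination h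
  have a2 : (t = s - 2) ↔ t + 2 = s := by constructor <;> intro h <;> linear_combination h
  simp only [a1, a2]
  by_cases b1 : t = s
  · subst b1
    simp [Finset.filter_insert, Finset.filter_singleton, e1.symm, e2.symm]
  · by_cases b2 : t + 1 = s
    · subst b2
      simp [Finset.filter_insert, Finset.filter_singleton, e1, e3.symm]
    · by_cases b3 : t + 2 = s
      · subst b3
        simp [Finset.filter_insert, Finset.filter_singleton, e2, e3]
      · simp [Finset.filter_insert, Finset.filter_singleton, b1, b2, b3]

theorem bij_of_partition (I : Finset V) (opt : Z k → Prop)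
    (hT : ∀ K : Finset V, K ⊆ I → H.IsNClique 3 K → ∃ t, K.image pos = {t, t + 1, t + 2})
    (hC : ∀ u v, u ∈ I → v ∈ I → ¬ opt (pos u) → pos u = pos v → u = v)
    (hopt : ∀ s, opt s → ¬ opt (s + 1)) (hk : 1 ≤ k)
    (hP : ∀ v ∈ I, ∃ P : Finpartition (I.erase v), ∀ K ∈ P.parts, H.IsNClique 3 K)
    (hne : ∃ u ∈ I, ∃ v ∈ I, u ≠ v) : Set.BijOn pos I Set.univ := by
  classical
  let c : Z k → ℤ := fun s => ((I.filter (fun u => pos u = s)).card : ℤ)
  have hcpos : ∀ u ∈ I, 0 < c (pos u) := by
    intro u hu
    simp only [c]
    exact_mod_cast Finset.card_pos.2 ⟨u, by simp [hu]⟩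
  have hc1 : ∀ s, ¬ opt s → c s ≤ 1 := by
    intro s hs
    simp only [c]
    have : (I.filter (fun u => pos u = s)).card ≤ 1 := by
      rw [Finset.card_le_one]
      intro a ha b hb
      simp only [mem_filter] at ha hb
      exact hC a b ha.1 hb.1 (by rw [ha.2]; exact hs) (ha.2.trans hb.2.symm)
    exact_mod_cast this
  have hy : ∀ p, 0 < c p → ∃ y : Z k → ℤ, (∀ t, 0 ≤ y t) ∧
      ∀ s, c s = (if s = p then 1 else 0) + (y s + y (s - 1) + y (s - 2)) := by
    intro p hp
    simp only [c] at hp
    obtain ⟨v, hv⟩ := Finset.card_pos.1 (by exact_mod_cast hp)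
    simp only [mem_filter] at hv
    obtain ⟨hvI, hv⟩ := hv
    obtain ⟨P, hP⟩ := hP v hvI
    have hT' : ∀ K ∈ P.parts, ∃ t, K.image pos = {t, t + 1, t + 2} := fun K hK =>
      hT K ((P.le hK).trans (Finset.erase_subset _ _)) (hP K hK)
    choose! τ hτ using hT'
    refine ⟨fun t => ∑ K ∈ P.parts, (if τ K = t then 1 else 0), fun t => ?_, fun s => ?_⟩
    · exact Finset.sum_nonneg fun K _ => by split_ifs <;> norm_num
    · have e1 : c s = (if s = p then 1 else 0) +
          (((I.erase v).filter (fun u => pos u = s)).card : ℤ) := by
        simp only [c]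
        rw [Finset.filter_erase]
        by_cases hs : s = p
        · subst hs
          rw [if_pos rfl]
          have hm : v ∈ I.filter (fun u => pos u = s) := by simp [hv, hvI]
          have := Finset.card_erase_add_one hm
          push_cast [← this]
          ring
        · have hm : v ∉ I.filter (fun u => pos u = s) := by
            simp only [mem_filter, not_and]
            intro _
            rw [hv]
            exact fun h => hs h.symm
          rw [Finset.erase_eq_of_notMem hm, if_neg hs]
          simp
      have e2 : (((I.erase v).filter (fun u => pos u = s)).card : ℤ) =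
          ∑ K ∈ P.parts, ((K.filter (fun u => pos u = s)).card : ℤ) := by
        have : (I.erase v).filter (fun u => pos u = s) =
            P.parts.biUnion (fun K => K.filter (fun u => pos u = s)) := by
          conv_lhs => rw [← P.biUnion_parts]
          rw [Finset.filter_biUnion]
          rfl
        rw [this, Finset.card_biUnion]
        · push_cast
          rfl
        · intro K hK K' hK' hne
          exact Finset.disjoint_filter_filter (P.disjoint hK hK' hne)
      rw [e1, e2, ← Finset.sum_add_distrib, ← Finset.sum_add_distrib]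
      congr 1
      refine Finset.sum_congr rfl fun K hK => ?_
      have hc := hP K hK
      rw [card_filter_pos pos hk hc.card_eq (hτ K hK) s]
      ring
  obtain ⟨u, hu, v, hvI, huv⟩ := hne
  obtain ⟨P, hP'⟩ := hP v hvI
  obtain ⟨K, hK, huK⟩ := P.exists_mem (a := u) (by simp [huv, hu])
  have hKI : K ⊆ I := (P.le hK).trans (Finset.erase_subset _ _)
  obtain ⟨t, ht⟩ := hT K hKI (hP' K hK)
  have h1 : 0 < c t := by
    have : t ∈ K.image pos := by rw [ht]; simp
    obtain ⟨a, haK, rfl⟩ := Finset.mem_image.1 this
    exact hcpos a (hKI haK)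
  have h2 : 0 < c (t + 1) := by
    have : t + 1 ∈ K.image pos := by rw [ht]; simp
    obtain ⟨a, haK, ha⟩ := Finset.mem_image.1 this
    rw [← ha]
    exact hcpos a (hKI haK)
  have key := all_one c opt hc1 hopt hy t h1 h2
  refine ⟨fun _ _ => Set.mem_univ _, ?_, ?_⟩
  · intro a haI b hbI hab
    have := key (pos a)
    simp only [c] at this
    have h3 : (I.filter (fun u => pos u = pos a)).card = 1 := by exact_mod_cast this
    rw [Finset.card_eq_one] at h3
    obtain ⟨x, hx⟩ := h3
    have ha : a ∈ I.filter (fun u => pos u = pos a) := by simpa using haI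
    have hb : b ∈ I.filter (fun u => pos u = pos a) := by simpa [hab] using hbI
    rw [hx, Finset.mem_singleton] at ha hb
    rw [ha, hb]
  · intro s _
    have := key s
    simp only [c] at this
    have h3 : (I.filter (fun u => pos u = s)).card = 1 := by exact_mod_cast this
    obtain ⟨a, ha⟩ := Finset.card_pos.1 (by omega : 0 < (I.filter (fun u => pos u = s)).card)
    simp only [mem_filter] at ha
    exact ⟨a, ha.1, ha.2⟩

end graph

end Pool.Agent.H697R2.Part
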