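import Mathlib
import Pool.Agent.H697R2.Part.Bij

set_option autoImplicit false

namespace Pool.Agent.H697R2.Part

open Finset

section graph

variable {k : ℕ} {V : Type*} [DecidableEq V] (H : SimpleGraph V) (pos : V → Z k)

theorem cast_cases {a b : ℕ} (h : (a : Z k) = (b : Z k)) (ha : a ≤ 3 * k) (hb : b ≤ 3 * k + 2)
    (hk : 1 ≤ k) : a = b ∨ b = a + (3 * k + 1) := by
  rw [ZMod.natCast_eq_natCast_iff'] at h
  rw [Nat.mod_eq_of_lt (by omega : a < 3 * k + 1)] at h
  by_cases hb' : b < 3 * k + 1
  · left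
    rw [Nat.mod_eq_of_lt hb'] at h
    exact h
  · right
    rw [Nat.mod_eq_sub_mod (by omega), Nat.mod_eq_of_lt (by omega)] at h
    omega

/-- The 3-colouring of a path-square is forced. -/
theorem same_color (I : Finset V) (hk : 1 ≤ k) (hpos : Set.BijOn pos I Set.univ)
    (hA : ∀ u ∈ I, ∀ v ∈ I, pos v = pos u + 1 ∨ pos v = pos u + 2 → H.Adj u v)
    (v₀ : V) (hv₀ : pos v₀ = -1) (Q : Finpartition (I.erase v₀)) (hQ : Q.parts.card = 3)
    (hQ' : ∀ S ∈ Q.parts, H.IsIndepSet S) (i j : ℕ) (hi : i < k) (hj : j < k) (u v : V)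
    (huI : u ∈ I) (hvI : v ∈ I) (hu : pos u = ((3 * i : ℕ) : Z k)) (hv : pos v = ((3 * j : ℕ) : Z k)) : ¬ H.Adj u v := by
  have hsurj : ∀ s : Z k, ∃ u ∈ I, pos u = s := fun s => by
    obtain ⟨a, ha, h⟩ := hpos.2.2 (Set.mem_univ s)
    exact ⟨a, ha, h⟩
  choose e heI he using hsurj
  have hne : ∀ t < 3 * k, e (t : Z k) ≠ v₀ := by
    intro t ht h
    have h1 := he (t : Z k)
    rw [h, hv₀, ← three_k] at h1
    rcases cast_cases h1 (by omega) (by omega) hk with h2 | h2 <;> omega
  have hmem : ∀ t < 3 * k, e (t : Z k) ∈ I.erase v₀ := by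
    intro t ht
    simp [hne t ht, heI]
  have hdiff : ∀ s t : ℕ, s < 3 * k → t < 3 * k → (t = s + 1 ∨ t = s + 2) →
      Q.part (e (s : Z k)) ≠ Q.part (e (t : Z k)) := by
    intro s t hs ht hst heq
    have hadj : H.Adj (e (s : Z k)) (e (t : Z k)) := by
      refine hA _ (heI _) _ (heI _) ?_
      rw [he, he]
      rcases hst with rfl | rfl
      · left; push_cast; ring
      · right; push_cast; ring
    have m1 : Q.part (e (s : Z k)) ∈ Q.parts := Q.part_mem.2 (hmem s hs)
    have m2 : e (s : Z k) ∈ Q.part (e (s : Z k)) := Q.mem_part_self.2 (hmem s hs)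
    have m3 : e (t : Z k) ∈ Q.part (e (s : Z k)) := by
      rw [heq]
      exact Q.mem_part_self.2 (hmem t ht)
    exact hQ' _ m1 m2 m3 hadj.ne hadj
  have hstep : ∀ t, t + 3 < 3 * k → Q.part (e ((t + 3 : ℕ) : Z k)) = Q.part (e (t : Z k)) := by
    intro t ht
    have a01 := hdiff t (t + 1) (by omega) (by omega) (by omega)
    have a02 := hdiff t (t + 2) (by omega) (by omega) (by omega)
    have a12 := hdiff (t + 1) (t + 2) (by omega) (by omega) (by omega)
    have a13 := hdiff (t + 1) (t + 3) (by omega) (by omega) (by omega)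
    have a23 := hdiff (t + 2) (t + 3) (by omega) (by omega) (by omega)
    have hsub : ({Q.part (e (t : Z k)), Q.part (e ((t + 1 : ℕ) : Z k)),
        Q.part (e ((t + 2 : ℕ) : Z k))} : Finset (Finset V)) ⊆ Q.parts := by
      intro x hx
      simp only [mem_insert, mem_singleton] at hx
      rcases hx with rfl | rfl | rfl
      · exact Q.part_mem.2 (hmem _ (by omega))
      · exact Q.part_mem.2 (hmem _ (by omega))
      · exact Q.part_mem.2 (hmem _ (by omega))
    have hcard : ({Q.part (e (t : Z k)), Q.part (e ((t + 1 : ℕ) : Z k)),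
        Q.part (e ((t + 2 : ℕ) : Z k))} : Finset (Finset V)).card = 3 := by
      rw [Finset.card_insert_of_notMem, Finset.card_insert_of_notMem, Finset.card_singleton]
      · simpa only [mem_singleton] using a12
      · simp only [mem_insert, mem_singleton, not_or]
        exact ⟨a01, a02⟩
    have heq := Finset.eq_of_subset_of_card_le hsub (by rw [hQ, hcard])
    have h3 : Q.part (e ((t + 3 : ℕ) : Z k)) ∈ Q.parts := Q.part_mem.2 (hmem _ (by omega))
    rw [← heq] at h3
    simp only [mem_insert, mem_singleton] at h3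
    rcases h3 with h | h | h
    · exact h
    · exact absurd h.symm a13
    · exact absurd h.symm a23
  have hall : ∀ i, i < k → Q.part (e ((3 * i : ℕ) : Z k)) = Q.part (e ((0 : ℕ) : Z k)) := by
    intro i
    induction i with
    | zero => intro _; rfl
    | succ i ih =>
      intro hi
      rw [show 3 * (i + 1) = 3 * i + 3 by ring, hstep (3 * i) (by omega)]
      exact ih (by omega)
  have hue : e ((3 * i : ℕ) : Z k) = u := hpos.2.1 (heI _) huI (by rw [he, hu])
  have hve : e ((3 * j : ℕ) : Z k) = v := hpos.2.1 (heI _) hvI (by rw [he, hv])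
  intro hadj
  have p1 := hall i hi
  have p2 := hall j hj
  rw [hue] at p1
  rw [hve] at p2
  have hmu : u ∈ I.erase v₀ := by rw [← hue]; exact hmem _ (by omega)
  have hmv : v ∈ I.erase v₀ := by rw [← hve]; exact hmem _ (by omega)
  have m1 : Q.part u ∈ Q.parts := Q.part_mem.2 hmu
  have m2 : u ∈ Q.part u := Q.mem_part_self.2 hmu
  have m3 : v ∈ Q.part u := by
    rw [p1, ← p2]
    exact Q.mem_part_self.2 hmv
  exact hQ' _ m1 m2 m3 hadj.ne hadj

theorem parts_of_fun {s : Finset V} {m r : ℕ} (g : V → Fin m) (hr : 0 < r)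
    (hg : ∀ i, (s.filter (fun u => g u = i)).card = r) :
    ∃ P : Finpartition s, P.parts.card = m ∧
      ∀ K ∈ P.parts, ∃ i, K = s.filter (fun u => g u = i) := by
  classical
  refine ⟨Finpartition.ofExistsUnique (univ.image (fun i => s.filter (fun u => g u = i)))
    ?_ ?_ ?_, ?_, ?_⟩
  · intro p hp
    obtain ⟨i, _, rfl⟩ := Finset.mem_image.1 hp
    exact Finset.filter_subset _ _
  · intro a ha
    refine ⟨s.filter (fun u => g u = g a), ⟨Finset.mem_image_of_mem _ (mem_univ _), ?_⟩, ?_⟩
    · simp [ha]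
    · rintro t ⟨ht, hat⟩
      obtain ⟨i, _, rfl⟩ := Finset.mem_image.1 ht
      simp only [mem_filter] at hat
      rw [hat.2]
  · intro h
    obtain ⟨i, _, hi⟩ := Finset.mem_image.1 h
    have := hg i
    rw [hi] at this
    simp at this
    omega
  · show (univ.image (fun i => s.filter (fun u => g u = i))).card = m
    rw [Finset.card_image_of_injective, Finset.card_univ, Fintype.card_fin]
    intro i j hij
    simp only at hij
    obtain ⟨a, ha⟩ := Finset.card_pos.1 (by rw [hg i]; exact hr)
    have hb := ha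
    rw [hij] at hb
    simp only [mem_filter] at ha hb
    rw [← ha.2, hb.2]
  · intro K hK
    obtain ⟨i, _, hi⟩ := Finset.mem_image.1 hK
    exact ⟨i, hi.symm⟩

/-- adjacency in the web -/
def near (a b : Z k) : Prop := b = a + 1 ∨ b = a + 2 ∨ a = b + 1 ∨ a = b + 2

theorem card_filter_rho (I : Finset V) {N : ℕ} (ρ : V → ℕ) (hinj : Set.InjOn ρ I)
    (himg : ∀ r, r < N ↔ ∃ u ∈ I, ρ u = r) (p : ℕ → Prop) [DecidablePred p] :
    (I.filter (fun u => p (ρ u))).card = ((range N).filter p).card := by
  rw [← Finset.card_image_of_injOn (hinj.mono (Finset.coe_subset.2 (Finset.filter_subset _ _)))]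
  congr 1
  ext r
  simp only [mem_image, mem_filter, mem_range]
  constructor
  · rintro ⟨u, ⟨hu, hp⟩, rfl⟩
    exact ⟨(himg _).2 ⟨u, hu, rfl⟩, hp⟩
  · rintro ⟨h1, h2⟩
    obtain ⟨u, hu, rfl⟩ := (himg r).1 h1
    exact ⟨u, ⟨hu, h2⟩, rfl⟩

/-- The web `C_{3k+1}^2` is partitionable. -/
theorem web_partitionable (I : Finset V) (hk : 1 ≤ k) (hpos : Set.BijOn pos I Set.univ)
    (hA : ∀ u ∈ I, ∀ v ∈ I, H.Adj u v ↔ near (pos u) (pos v)) (v : V) (hvI : v ∈ I) :
    (∃ P : Finpartition (I.erase v), P.parts.card = k ∧ ∀ K ∈ P.parts, H.IsNClique 3 K) ∧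
    (∃ Q : Finpartition (I.erase v), Q.parts.card = 3 ∧
      ∀ S ∈ Q.parts, H.IsNIndepSet k S) := by
  let ρ : V → ℕ := fun u => (pos u - pos v).val
  have hρcast : ∀ u, (ρ u : Z k) = pos u - pos v := fun u => by simp [ρ]
  have hρlt : ∀ u, ρ u ≤ 3 * k := fun u => by
    have := (pos u - pos v).val_lt
    simp only [ρ]
    omega
  have hρinj : Set.InjOn ρ I := by
    intro a ha b hb hab
    have h1 := hρcast a
    have h2 := hρcast b
    rw [hab, h2] at h1
    apply hpos.2.1 ha hb
    linear_combination -h1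
  have hρ0 : ∀ u ∈ I, (ρ u = 0 ↔ u = v) := by
    intro u hu
    constructor
    · intro h
      apply hρinj hu hvI
      rw [h]
      simp [ρ]
    · rintro rfl
      simp [ρ]
  have hρimg : ∀ r, r < 3 * k + 1 ↔ ∃ u ∈ I, ρ u = r := by
    intro r
    constructor
    · intro hr
      obtain ⟨u, huI, hu⟩ := hpos.2.2 (Set.mem_univ ((r : Z k) + pos v))
      refine ⟨u, huI, ?_⟩
      simp only [ρ, hu, add_sub_cancel_right]
      rw [ZMod.val_natCast, Nat.mod_eq_of_lt hr]
    · rintro ⟨u, _, rfl⟩
      have := hρlt u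
      omega
  have hfil : ∀ (p : ℕ → Prop) [DecidablePred p],
      ((I.erase v).filter (fun u => p (ρ u))).card =
        ((range (3 * k + 1)).filter (fun r => r ≠ 0 ∧ p r)).card := by
    intro p _
    rw [← card_filter_rho I ρ hρinj hρimg]
    congr 1
    ext u
    simp only [mem_filter, mem_erase, ne_eq]
    constructor
    · rintro ⟨⟨h1, h2⟩, h3⟩
      exact ⟨h2, fun h => h1 ((hρ0 u h2).1 h), h3⟩
    · rintro ⟨h1, h2, h3⟩
      exact ⟨⟨fun h => h2 ((hρ0 u h1).2 h), h1⟩, h3⟩
  constructor
  · have hb : ∀ u, (ρ u - 1) / 3 < k := by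
      intro u
      have := hρlt u
      omega
    obtain ⟨P, hP1, hP2⟩ := parts_of_fun (s := I.erase v) (m := k) (r := 3)
      (fun u => (⟨(ρ u - 1) / 3, hb u⟩ : Fin k)) (by omega) (by
        intro i
        have e : (I.erase v).filter (fun u => (⟨(ρ u - 1) / 3, hb u⟩ : Fin k) = i) =
            (I.erase v).filter (fun u => (ρ u - 1) / 3 = (i : ℕ)) := by
          ext u
          simp [Fin.ext_iff]
        rw [e, hfil (fun r => (r - 1) / 3 = (i : ℕ))]
        have e2 : (range (3 * k + 1)).filter (fun r => r ≠ 0 ∧ (r - 1) / 3 = (i : ℕ)) =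
            Finset.Icc (3 * (i : ℕ) + 1) (3 * i + 3) := by
          ext r
          simp only [mem_filter, mem_range, mem_Icc]
          have := i.isLt
          omega
        rw [e2]
        simp)
    refine ⟨P, hP1, fun K hK => ?_⟩
    obtain ⟨i, rfl⟩ := hP2 K hK
    rw [SimpleGraph.isNClique_iff]
    constructor
    · intro a ha b hb' hab
      simp only [coe_filter, mem_erase, Set.mem_ofPred_eq, Fin.ext_iff] at ha hb'
      have h1 : ρ a ≠ ρ b := fun h => hab (hρinj ha.1.2 hb'.1.2 h)
      have h2 : ρ a ≠ 0 := fun h => ha.1.1 ((hρ0 a ha.1.2).1 h)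
      have h3 : ρ b ≠ 0 := fun h => hb'.1.1 ((hρ0 b hb'.1.2).1 h)
      have h4 : ρ b = ρ a + 1 ∨ ρ b = ρ a + 2 ∨ ρ a = ρ b + 1 ∨ ρ a = ρ b + 2 := by omega
      rw [hA a ha.1.2 b hb'.1.2]
      have ca := hρcast a
      have cb := hρcast b
      rcases h4 with h | h | h | h
      · left
        rw [h] at cb
        push_cast at cb
        linear_combination ca - cb
      · right; left
        rw [h] at cb
        push_cast at cb
        linear_combination ca - cb
      · right; right; left
        rw [h] at ca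
        push_cast at ca
        linear_combination cb - ca
      · right; right; right
        rw [h] at ca
        push_cast at ca
        linear_combination cb - ca
    · have e : (I.erase v).filter (fun u => (⟨(ρ u - 1) / 3, hb u⟩ : Fin k) = i) =
            (I.erase v).filter (fun u => (ρ u - 1) / 3 = (i : ℕ)) := by
          ext u
          simp [Fin.ext_iff]
      rw [e, hfil (fun r => (r - 1) / 3 = (i : ℕ))]
      have e2 : (range (3 * k + 1)).filter (fun r => r ≠ 0 ∧ (r - 1) / 3 = (i : ℕ)) =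
            Finset.Icc (3 * (i : ℕ) + 1) (3 * i + 3) := by
          ext r
          simp only [mem_filter, mem_range, mem_Icc]
          have := i.isLt
          omega
      rw [e2]
      simp
  · have hb : ∀ u, (ρ u - 1) % 3 < 3 := fun u => Nat.mod_lt _ (by norm_num)
    have hcnt : ∀ i : Fin 3, ((I.erase v).filter
        (fun u => (⟨(ρ u - 1) % 3, hb u⟩ : Fin 3) = i)).card = k := by
      intro i
      have e : (I.erase v).filter (fun u => (⟨(ρ u - 1) % 3, hb u⟩ : Fin 3) = i) =
            (I.erase v).filter (fun u => (ρ u - 1) % 3 = (i : ℕ)) := by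
          ext u
          simp [Fin.ext_iff]
      rw [e, hfil (fun r => (r - 1) % 3 = (i : ℕ))]
      have e2 : (range (3 * k + 1)).filter (fun r => r ≠ 0 ∧ (r - 1) % 3 = (i : ℕ)) =
            (range k).image (fun s => 3 * s + 1 + (i : ℕ)) := by
        ext r
        simp only [mem_filter, mem_range, mem_image]
        have := i.isLt
        constructor
        · rintro ⟨h1, h2, h3⟩
          exact ⟨(r - 1) / 3, by omega, by omega⟩
        · rintro ⟨s, hs, rfl⟩
          omega
      rw [e2, Finset.card_image_of_injective, card_range]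
      intro a b hab
      simp only at hab
      omega
    obtain ⟨P, hP1, hP2⟩ := parts_of_fun (s := I.erase v) (m := 3) (r := k)
      (fun u => (⟨(ρ u - 1) % 3, hb u⟩ : Fin 3)) (by omega) hcnt
    refine ⟨P, hP1, fun K hK => ?_⟩
    obtain ⟨i, rfl⟩ := hP2 K hK
    refine ⟨?_, hcnt i⟩
    intro a ha b hb' hab hadj
    simp only [coe_filter, mem_erase, Set.mem_ofPred_eq, Fin.ext_iff] at ha hb'
    have h2 : ρ a ≠ 0 := fun h => ha.1.1 ((hρ0 a ha.1.2).1 h)
    have h3 : ρ b ≠ 0 := fun h => hb'.1.1 ((hρ0 b hb'.1.2).1 h)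
    have la := hρlt a
    have lb := hρlt b
    rw [hA a ha.1.2 b hb'.1.2] at hadj
    have ca := hρcast a
    have cb := hρcast b
    rcases hadj with h | h | h | h
    · have : (ρ b : Z k) = ((ρ a + 1 : ℕ) : Z k) := by
        push_cast
        rw [cb, ca, h]
        ring
      rcases cast_cases this (by omega) (by omega) hk with h' | h' <;> omega
    · have : (ρ b : Z k) = ((ρ a + 2 : ℕ) : Z k) := by
        push_cast
        rw [cb, ca, h]
        ring
      rcases cast_cases this (by omega) (by omega) hk with h' | h' <;> omega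
    · have : (ρ a : Z k) = ((ρ b + 1 : ℕ) : Z k) := by
        push_cast
        rw [cb, ca, h]
        ring
      rcases cast_cases this (by omega) (by omega) hk with h' | h' <;> omega
    · have : (ρ a : Z k) = ((ρ b + 2 : ℕ) : Z k) := by
        push_cast
        rw [cb, ca, h]
        ring
      rcases cast_cases this (by omega) (by omega) hk with h' | h' <;> omega

end graph

end Pool.Agent.H697R2.Part
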