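import Mathlib
import Pool.Agent.H697R2.Part.Web

set_option autoImplicit false

namespace Pool.Agent.H697R2.Part

open Finset

/-- position, is an option, sign, variable -/
abbrev VD := ℕ × Bool × Bool × ℕ

def commons (m : ℕ) : List VD :=
  ((List.range (6 * m + 1)).filter (fun p => !(decide (p % 6 = 0)) || decide (p = 6 * m))).map
    (fun p => (p, false, false, 0))

def options (φ : List (List (Bool × ℕ))) : List VD :=
  φ.zipIdx.flatMap (fun c => c.1.map (fun l => (6 * c.2, true, l.1, l.2)))

def vdata (φ : List (List (Bool × ℕ))) : List VD := commons φ.length ++ options φ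

def nearN (n p q : ℕ) : Bool :=
  decide (q = p + 1) || (decide (q = p + 2) || (decide (p = q + 1) || (decide (p = q + 2) ||
    (decide (q + n = p + 1) || (decide (q + n = p + 2) || (decide (p + n = q + 1) ||
      decide (p + n = q + 2)))))))

def adjT (n : ℕ) (d e : VD) : Bool :=
  nearN n d.1 e.1 ||
    ((d.2.1 && e.2.1) && ((!decide (d.1 = e.1)) && (decide (d.2.2.2 = e.2.2.2) && (d.2.2.1 ^^ e.2.2.1))))

theorem nearN_iff (n p q : ℕ) : nearN n p q = true ↔ (q = p + 1 ∨ q = p + 2 ∨ p = q + 1 ∨
    p = q + 2 ∨ q + n = p + 1 ∨ q + n = p + 2 ∨ p + n = q + 1 ∨ p + n = q + 2) := by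
  simp [nearN]

theorem mem_commons {m : ℕ} {d : VD} : d ∈ commons m ↔
    (d.1 < 6 * m + 1 ∧ (d.1 % 6 ≠ 0 ∨ d.1 = 6 * m)) ∧ d.2 = (false, false, 0) := by
  obtain ⟨p, l⟩ := d
  simp only [commons, List.mem_map, List.mem_filter, List.mem_range, Prod.mk.injEq,
    Bool.or_eq_true, Bool.not_eq_true', decide_eq_true_eq, decide_eq_false_iff_not]
  constructor
  · rintro ⟨a, h, rfl, rfl⟩
    exact ⟨h, rfl⟩
  · rintro ⟨h, rfl⟩
    exact ⟨p, h, rfl, rfl⟩

theorem mem_options {φ : List (List (Bool × ℕ))} {d : VD} : d ∈ options φ ↔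
    ∃ j c, φ[j]? = some c ∧ d.1 = 6 * j ∧ d.2.1 = true ∧ d.2.2 ∈ c := by
  obtain ⟨p, b, l⟩ := d
  simp only [options, List.mem_flatMap, List.mem_map, Prod.mk.injEq]
  constructor
  · rintro ⟨⟨c, j⟩, h1, l', h2, rfl, rfl, rfl⟩
    exact ⟨j, c, by simpa [List.mem_zipIdx_iff_getElem?] using h1, rfl, rfl, h2⟩
  · rintro ⟨j, c, h1, rfl, rfl, h2⟩
    exact ⟨(c, j), by simpa [List.mem_zipIdx_iff_getElem?] using h1, l, h2, rfl, rfl, rfl⟩

section facts

variable {φ : List (List (Bool × ℕ))}

theorem vd_lt {d : VD} (h : d ∈ vdata φ) : d.1 < 6 * φ.length + 1 := by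
  rcases List.mem_append.1 h with h | h
  · exact (mem_commons.1 h).1.1
  · obtain ⟨j, c, h1, h2, _⟩ := mem_options.1 h
    have := (List.getElem?_eq_some_iff.1 h1).1
    omega

theorem vd_opt {d : VD} (h : d ∈ vdata φ) (ho : d.2.1 = true) :
    ∃ j c, φ[j]? = some c ∧ d.1 = 6 * j ∧ d.2.2 ∈ c := by
  rcases List.mem_append.1 h with h | h
  · have := (mem_commons.1 h).2
    rw [this] at ho
    simp at ho
  · obtain ⟨j, c, h1, h2, _, h3⟩ := mem_options.1 h
    exact ⟨j, c, h1, h2, h3⟩

theorem vd_opt_lt {d : VD} (h : d ∈ vdata φ) (ho : d.2.1 = true) :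
    ∃ j, j < φ.length ∧ d.1 = 6 * j := by
  obtain ⟨j, c, h1, h2, _⟩ := vd_opt h ho
  exact ⟨j, (List.getElem?_eq_some_iff.1 h1).1, h2⟩

theorem vd_nonopt {d : VD} (h : d ∈ vdata φ) (ho : d.2.1 = false) :
    d.1 % 6 ≠ 0 ∨ d.1 = 6 * φ.length := by
  rcases List.mem_append.1 h with h | h
  · exact (mem_commons.1 h).1.2
  · obtain ⟨j, c, h1, h2, h3, _⟩ := mem_options.1 h
    rw [ho] at h3
    simp at h3

theorem vd_pairwise : (vdata φ).Pairwise (fun d e =>
    ¬ (d.1 = e.1 ∧ (d.1 % 6 ≠ 0 ∨ d.1 = 6 * φ.length))) := by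
  unfold vdata
  rw [List.pairwise_append]
  refine ⟨?_, ?_, ?_⟩
  · unfold commons
    rw [List.pairwise_map]
    refine List.Pairwise.filter _ ?_
    refine List.nodup_range.imp ?_
    intro a b hab h
    exact hab h.1
  · refine List.Pairwise.imp_of_mem (R := fun _ _ => True) ?_ (List.pairwise_of_forall fun _ _ => trivial)
    intro a b ha hb _ h
    obtain ⟨j, c, h1, h2, _⟩ := mem_options.1 ha
    have := (List.getElem?_eq_some_iff.1 h1).1
    omega
  · intro a ha b hb h
    obtain ⟨j, c, h1, h2, _⟩ := mem_options.1 hb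
    have := (List.getElem?_eq_some_iff.1 h1).1
    omega

theorem vd_inj (i j : Fin (vdata φ).length) (h : ((vdata φ).get i).1 = ((vdata φ).get j).1)
    (hn : ((vdata φ).get i).1 % 6 ≠ 0 ∨ ((vdata φ).get i).1 = 6 * φ.length) : i = j := by
  have hp := List.pairwise_iff_get.1 (vd_pairwise (φ := φ))
  rcases lt_trichotomy i j with h1 | h1 | h1
  · exact absurd ⟨h, hn⟩ (hp i j h1)
  · exact h1
  · exact absurd ⟨h.symm, by rw [← h]; exact hn⟩ (hp j i h1)

theorem vd_common (p : ℕ) (hp : p < 6 * φ.length + 1) (hn : p % 6 ≠ 0 ∨ p = 6 * φ.length) :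
    ∃ i : Fin (vdata φ).length, (vdata φ).get i = (p, false, false, 0) := by
  have : (p, false, false, 0) ∈ vdata φ :=
    List.mem_append.2 (Or.inl (mem_commons.2 ⟨⟨hp, hn⟩, rfl⟩))
  exact List.mem_iff_get.1 this

theorem vd_option {j : ℕ} {c : List (Bool × ℕ)} (hc : φ[j]? = some c) {l : Bool × ℕ}
    (hl : l ∈ c) : ∃ i : Fin (vdata φ).length, (vdata φ).get i = (6 * j, true, l) := by
  have : (6 * j, true, l) ∈ vdata φ :=
    List.mem_append.2 (Or.inr (mem_options.2 ⟨j, c, hc, rfl, rfl, hl⟩))
  exact List.mem_iff_get.1 this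

end facts

/-! ### offsets -/

section offset

variable {k : ℕ}

def Off (d : ℤ) : Prop := d = 1 ∨ d = 2 ∨ d = -1 ∨ d = -2

theorem near_iff_off (a b : Z k) : near a b ↔ ∃ d : ℤ, Off d ∧ b = a + d := by
  unfold near Off
  constructor
  · rintro (h | h | h | h)
    · exact ⟨1, by simp, by rw [h]; push_cast; ring⟩
    · exact ⟨2, by simp, by rw [h]; push_cast; ring⟩
    · exact ⟨-1, by simp, by rw [h]; push_cast; ring⟩
    · exact ⟨-2, by simp, by rw [h]; push_cast; ring⟩
  · rintro ⟨d, (rfl | rfl | rfl | rfl), h⟩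
    · left; rw [h]; push_cast; ring
    · right; left; rw [h]; push_cast; ring
    · right; right; left; rw [h]; push_cast; ring
    · right; right; right; rw [h]; push_cast; ring

theorem off_inj (hk : 2 ≤ k) {a : Z k} {d e : ℤ} (h : a + d = a + e) (hd : |d - e| ≤ 6) :
    d = e := by
  have h1 : ((d - e : ℤ) : Z k) = 0 := by
    push_cast
    linear_combination h
  rw [ZMod.intCast_zmod_eq_zero_iff_dvd] at h1
  by_contra hne
  have h2 : ((3 * k + 1 : ℕ) : ℤ) ≤ |d - e| := Int.le_of_dvd (abs_pos.2 (by omega)) ((dvd_abs _ _).2 h1)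
  push_cast at h2
  omega

theorem near_cast (hk : 2 ≤ k) {p q : ℕ} (hp : p < 3 * k + 1) (hq : q < 3 * k + 1) :
    near (p : Z k) (q : Z k) ↔ nearN (3 * k + 1) p q = true := by
  rw [nearN_iff]
  have hn : ((3 * k + 1 : ℕ) : Z k) = 0 := ZMod.natCast_self _
  unfold near
  constructor
  · rintro (h | h | h | h)
    · have : (q : Z k) = ((p + 1 : ℕ) : Z k) := by push_cast; exact h
      rcases cast_cases this (by omega) (by omega) (by omega) with h | h <;> omega
    · have : (q : Z k) = ((p + 2 : ℕ) : Z k) := by push_cast; exact h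
      rcases cast_cases this (by omega) (by omega) (by omega) with h | h <;> omega
    · have : (p : Z k) = ((q + 1 : ℕ) : Z k) := by push_cast; exact h
      rcases cast_cases this (by omega) (by omega) (by omega) with h | h <;> omega
    · have : (p : Z k) = ((q + 2 : ℕ) : Z k) := by push_cast; exact h
      rcases cast_cases this (by omega) (by omega) (by omega) with h | h <;> omega
  · rintro (h | h | h | h | h | h | h | h)
    · left; rw [h]; push_cast; ring
    · right; left; rw [h]; push_cast; ring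
    · right; right; left; rw [h]; push_cast; ring
    · right; right; right; rw [h]; push_cast; ring
    · left
      have := congrArg (Nat.cast : ℕ → Z k) h
      rw [Nat.cast_add, hn] at this
      push_cast at this
      linear_combination this
    · right; left
      have := congrArg (Nat.cast : ℕ → Z k) h
      rw [Nat.cast_add, hn] at this
      push_cast at this
      linear_combination this
    · right; right; left
      have := congrArg (Nat.cast : ℕ → Z k) h
      rw [Nat.cast_add, hn] at this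
      push_cast at this
      linear_combination this
    · right; right; right
      have := congrArg (Nat.cast : ℕ → Z k) h
      rw [Nat.cast_add, hn] at this
      push_cast at this
      linear_combination this

/-- three pairwise near positions are consecutive -/
theorem near3 (hk : 2 ≤ k) {a b c : Z k} (h1 : near a b) (h2 : near a c) (h3 : near b c) :
    ∃ t : Z k, ({a, b, c} : Finset (Z k)) = {t, t + 1, t + 2} := by
  rw [near_iff_off] at h1 h2 h3
  obtain ⟨d, hd, rfl⟩ := h1
  obtain ⟨e, he, rfl⟩ := h2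
  obtain ⟨f, hf, h3⟩ := h3
  have h4 : e = d + f := by
    apply off_inj hk (a := a)
    · rw [h3]
      push_cast
      ring
    · unfold Off at hd he hf
      rw [abs_le]
      omega
  unfold Off at hd he hf
  rcases hd with rfl | rfl | rfl | rfl <;> rcases he with rfl | rfl | rfl | rfl
  · omega
  · refine ⟨a, ?_⟩
    ext x; simp
  · refine ⟨a - 1, ?_⟩
    have e1 : a - 1 + 1 = a := by ring
    have e2 : a - 1 + 2 = a + 1 := by ring
    rw [e1, e2]
    push_cast
    ext x; simp only [mem_insert, mem_singleton, sub_eq_add_neg]; tauto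
  · omega
  · refine ⟨a, ?_⟩
    push_cast
    ext x; simp only [mem_insert, mem_singleton]; tauto
  · omega
  · omega
  · omega
  · refine ⟨a - 1, ?_⟩
    have e1 : a - 1 + 1 = a := by ring
    have e2 : a - 1 + 2 = a + 1 := by ring
    rw [e1, e2]
    push_cast
    ext x; simp only [mem_insert, mem_singleton, sub_eq_add_neg]; tauto
  · omega
  · omega
  · refine ⟨a - 2, ?_⟩
    have e1 : a - 2 + 1 = a - 1 := by ring
    have e2 : a - 2 + 2 = a := by ring
    rw [e1, e2]
    push_cast
    ext x; simp only [mem_insert, mem_singleton, sub_eq_add_neg]; tauto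
  · omega
  · omega
  · refine ⟨a - 2, ?_⟩
    have e1 : a - 2 + 1 = a - 1 := by ring
    have e2 : a - 2 + 2 = a := by ring
    rw [e1, e2]
    push_cast
    ext x; simp only [mem_insert, mem_singleton, sub_eq_add_neg]; tauto
  · omega

theorem near4 (hk : 2 ≤ k) {a b c x : Z k} (h1 : near a b) (h2 : near a c) (h3 : near b c)
    (h4 : near a x) (h5 : near b x) (h6 : near c x) : False := by
  rw [near_iff_off] at h1 h2 h3 h4 h5 h6
  obtain ⟨d, hd, rfl⟩ := h1
  obtain ⟨e, he, rfl⟩ := h2
  obtain ⟨f, hf, h3⟩ := h3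
  obtain ⟨g, hg, rfl⟩ := h4
  obtain ⟨p, hp, h5⟩ := h5
  obtain ⟨q, hq, h6⟩ := h6
  unfold Off at *
  have e1 : e = d + f := by
    apply off_inj hk (a := a)
    · rw [h3]
      push_cast
      ring
    · rw [abs_le]
      omega
  have e2 : g = d + p := by
    apply off_inj hk (a := a)
    · rw [h5]
      push_cast
      ring
    · rw [abs_le]
      omega
  have e3 : g = e + q := by
    apply off_inj hk (a := a)
    · rw [h6]
      push_cast
      ring
    · rw [abs_le]
      omega
  omega

end offset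

end Pool.Agent.H697R2.Part
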