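import Mathlib
import Pool.Agent.H697R2.Part.Red

set_option autoImplicit false

namespace Pool.Agent.H697R2.Part

open Finset

/-- the induced subgraph `G[I]` is partitionable -/
def PartOn {W : Type*} [DecidableEq W] (G : SimpleGraph W) (I : Finset W) : Prop :=
  ∃ α ω : ℕ, 2 ≤ α ∧ 2 ≤ ω ∧ I.card = α * ω + 1 ∧ ∀ v ∈ I,
    (∃ P : Finpartition (I.erase v), P.parts.card = α ∧ ∀ K ∈ P.parts, G.IsNClique ω K) ∧
    (∃ Q : Finpartition (I.erase v), Q.parts.card = ω ∧ ∀ S ∈ Q.parts, G.IsNIndepSet α S)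

section indep

variable {W : Type*} [DecidableEq W] (G : SimpleGraph W) (I : Finset W)

theorem le_indepNum {S : Finset W} (hS : S ⊆ I) (hi : G.IsIndepSet S) :
    S.card ≤ (G.induce (I : Set W)).indepNum := by
  have : Finite (I : Set W) := I.finite_toSet
  have h1 : (S.subtype (· ∈ (I : Set W))).card = S.card := by
    rw [Finset.card_subtype]
    congr 1
    exact Finset.filter_true_of_mem fun x hx => hS hx
  rw [← h1]
  apply SimpleGraph.IsIndepSet.card_le_indepNum
  intro a ha b hb hab hadj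
  rw [Finset.mem_coe, Finset.mem_subtype] at ha hb
  exact hi ha hb (fun h => hab (Subtype.ext h)) hadj

theorem indepNum_le {b : ℕ} (h : ∀ S ⊆ I, G.IsIndepSet (S : Set W) → S.card ≤ b) :
    (G.induce (I : Set W)).indepNum ≤ b := by
  have : Finite (I : Set W) := I.finite_toSet
  obtain ⟨s, hs⟩ := SimpleGraph.exists_isNIndepSet_indepNum (G := G.induce (I : Set W))
  rw [← hs.card_eq, ← Finset.card_map (Function.Embedding.subtype _)]
  apply h
  · intro x hx
    obtain ⟨y, _, rfl⟩ := Finset.mem_map.1 hx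
    exact y.2
  · intro a ha b hb hab hadj
    simp only [coe_map, Function.Embedding.subtype_apply, Set.mem_image, mem_coe] at ha hb
    obtain ⟨a', ha', rfl⟩ := ha
    obtain ⟨b', hb', rfl⟩ := hb
    exact hs.isIndepSet ha' hb' (fun h => hab (by rw [h])) hadj

theorem card_le_of_parts {v : W} {α ω : ℕ} (P : Finpartition (I.erase v)) (hP : P.parts.card = α)
    (hK : ∀ K ∈ P.parts, G.IsNClique ω K) {S : Finset W} (hS : S ⊆ I)
    (hi : G.IsIndepSet (S : Set W)) (hv : v ∉ S) : S.card ≤ α := by
  have h1 : S = P.parts.biUnion (fun K => K ∩ S) := by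
    ext x
    simp only [mem_biUnion, mem_inter]
    constructor
    · intro hx
      obtain ⟨K, hK, hxK⟩ := P.exists_mem (a := x) (by
        rw [mem_erase]
        exact ⟨fun h => hv (h ▸ hx), hS hx⟩)
      exact ⟨K, hK, hxK, hx⟩
    · rintro ⟨K, _, _, hx⟩
      exact hx
  rw [h1, ← hP]
  refine Finset.card_biUnion_le.trans ?_
  have : ∑ K ∈ P.parts, (K ∩ S).card ≤ ∑ K ∈ P.parts, 1 := by
    refine Finset.sum_le_sum fun K hK' => ?_
    rw [Finset.card_le_one]
    intro a ha b hb
    by_contra hab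
    rw [mem_inter] at ha hb
    exact hi ha.2 hb.2 hab ((hK K hK').isClique ha.1 hb.1 hab)
  simpa using this

end indep

/-- satisfiability of a formula in conjunctive normal form -/
def Sat (φ : List (List (Bool × ℕ))) : Prop :=
  ∃ ν : ℕ → Bool, ∀ c ∈ φ, ∃ l ∈ c, ν l.2 = l.1

section main

variable {φ : List (List (Bool × ℕ))} (hφ : φ ≠ []) (G : SimpleGraph (Fin (vdata φ).length))
  (hG : ∀ i j, G.Adj i j ↔ adjT (6 * φ.length + 1) ((vdata φ).get i) ((vdata φ).get j) = true)

/-- the natural position of a vertex -/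
def np (i : Fin (vdata φ).length) : ℕ := ((vdata φ).get i).1

/-- the cyclic position of a vertex -/
def cp (i : Fin (vdata φ).length) : Z (2 * φ.length) := (np i : Z (2 * φ.length))

theorem xor_true (x y : Bool) : (x ^^ y) = true ↔ x ≠ y := by cases x <;> cases y <;> simp

/-- conflict -/
def Conf (i j : Fin (vdata φ).length) : Prop :=
  ((vdata φ).get i).2.1 = true ∧ ((vdata φ).get j).2.1 = true ∧ np i ≠ np j ∧
    ((vdata φ).get i).2.2.2 = ((vdata φ).get j).2.2.2 ∧
    ((vdata φ).get i).2.2.1 ≠ ((vdata φ).get j).2.2.1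

theorem np_lt (i : Fin (vdata φ).length) : np i < 3 * (2 * φ.length) + 1 := by
  have := vd_lt (List.get_mem (vdata φ) i)
  unfold np
  omega

theorem cp_eq {i j : Fin (vdata φ).length} : cp i = cp j ↔ np i = np j := by
  constructor
  · intro h
    have h1 := np_lt i
    have h2 := np_lt j
    unfold cp at h
    rw [ZMod.natCast_eq_natCast_iff', Nat.mod_eq_of_lt h1, Nat.mod_eq_of_lt h2] at h
    exact h
  · intro h
    unfold cp
    rw [h]

theorem len_pos (hφ : φ ≠ []) : 1 ≤ φ.length := by
  have := List.length_pos_iff.2 hφ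
  omega

include hφ hG in
theorem adj_iff (i j : Fin (vdata φ).length) : G.Adj i j ↔ near (cp i) (cp j) ∨ Conf i j := by
  have hl := len_pos hφ
  rw [hG, adjT, Bool.or_eq_true]
  have e : 6 * φ.length + 1 = 3 * (2 * φ.length) + 1 := by ring
  have h1 : near (cp i) (cp j) ↔ nearN (6 * φ.length + 1) ((vdata φ).get i).1
      ((vdata φ).get j).1 = true := by
    unfold cp
    rw [near_cast (by omega) (np_lt i) (np_lt j), e]
    rfl
  rw [h1]
  apply or_congr Iff.rfl
  unfold Conf np
  simp only [Bool.and_eq_true, Bool.not_eq_true', decide_eq_false_iff_not, decide_eq_true_eq,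
    ne_eq, and_assoc, xor_true]

theorem Conf.symm {i j : Fin (vdata φ).length} (h : Conf i j) : Conf j i :=
  ⟨h.2.1, h.1, h.2.2.1.symm, h.2.2.2.1.symm, h.2.2.2.2.symm⟩

theorem opt_pos {i : Fin (vdata φ).length} (h : ((vdata φ).get i).2.1 = true) :
    ∃ j, j < φ.length ∧ np i = 6 * j := vd_opt_lt (List.get_mem _ i) h

theorem near_iffN (hφ : φ ≠ []) {i j : Fin (vdata φ).length} : near (cp i) (cp j) ↔
    nearN (3 * (2 * φ.length) + 1) (np i) (np j) = true := by
  have hl := len_pos hφ
  exact near_cast (by omega) (np_lt i) (np_lt j)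

include hφ hG in
/-- a conflict edge lies in no triangle -/
theorem no_conf_triangle {a b c : Fin (vdata φ).length} (hab : Conf a b) (hac : G.Adj a c)
    (hbc : G.Adj b c) : False := by
  rw [adj_iff hφ G hG] at hac hbc
  obtain ⟨i, hi, ea⟩ := opt_pos hab.1
  obtain ⟨j, hj, eb⟩ := opt_pos hab.2.1
  have hne := hab.2.2.1
  rcases hac with hac | hac <;> rcases hbc with hbc | hbc
  · rw [near_iffN hφ, nearN_iff] at hac hbc
    rw [ea] at hac hne
    rw [eb] at hbc hne
    have := np_lt c
    omega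
  · obtain ⟨l, hl, ec⟩ := opt_pos hbc.2.1
    rw [near_iffN hφ, nearN_iff] at hac
    rw [ea, ec] at hac
    omega
  · obtain ⟨l, hl, ec⟩ := opt_pos hac.2.1
    rw [near_iffN hφ, nearN_iff] at hbc
    rw [eb, ec] at hbc
    omega
  · have h1 := hab.2.2.2.2
    have h2 := hac.2.2.2.2
    have h3 := hbc.2.2.2.2
    revert h1 h2 h3
    generalize ((vdata φ).get a).2.2.1 = x
    generalize ((vdata φ).get b).2.2.1 = y
    generalize ((vdata φ).get c).2.2.1 = z
    cases x <;> cases y <;> cases z <;> simp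

include hφ hG in
theorem near_of_triangle {a b c : Fin (vdata φ).length} (hab : G.Adj a b) (hac : G.Adj a c)
    (hbc : G.Adj b c) : near (cp a) (cp b) := by
  rcases (adj_iff hφ G hG a b).1 hab with h | h
  · exact h
  · exact (no_conf_triangle hφ G hG h hac hbc).elim

include hφ hG in
theorem cliqueFree : G.CliqueFree 4 := by
  intro S hS
  have hl := len_pos hφ
  obtain ⟨a, T, haT, rfl, hT⟩ := Finset.card_eq_succ.1 hS.card_eq
  obtain ⟨b, c, d, hbc', hbd', hcd', rfl⟩ := Finset.card_eq_three.1 hT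
  have hcl := hS.isClique
  simp only [mem_insert, mem_singleton, not_or] at haT
  obtain ⟨hab', hac', had'⟩ := haT
  have hab : G.Adj a b := hcl (by simp) (by simp) hab'
  have hac : G.Adj a c := hcl (by simp) (by simp) hac'
  have had : G.Adj a d := hcl (by simp) (by simp) had'
  have hbc : G.Adj b c := hcl (by simp) (by simp) hbc'
  have hbd : G.Adj b d := hcl (by simp) (by simp) hbd'
  have hcd : G.Adj c d := hcl (by simp) (by simp) hcd'
  exact near4 (k := 2 * φ.length) (by omega)
    (near_of_triangle hφ G hG hab hac hbc) (near_of_triangle hφ G hG hac hab hbc.symm)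
    (near_of_triangle hφ G hG hbc hab.symm hac.symm) (near_of_triangle hφ G hG had hab hbd.symm)
    (near_of_triangle hφ G hG hbd hab.symm had.symm)
    (near_of_triangle hφ G hG hcd hac.symm had.symm)

include hφ hG in
theorem triangle_pos (K : Finset (Fin (vdata φ).length)) (hK : G.IsNClique 3 K) :
    ∃ t, K.image cp = {t, t + 1, t + 2} := by
  have hl := len_pos hφ
  obtain ⟨a, b, c, hab, hac, hbc, rfl⟩ := SimpleGraph.is3Clique_iff.1 hK
  obtain ⟨t, ht⟩ := near3 (k := 2 * φ.length) (by omega)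
    (near_of_triangle hφ G hG hab hac hbc) (near_of_triangle hφ G hG hac hab hbc.symm)
    (near_of_triangle hφ G hG hbc hab.symm hac.symm)
  exact ⟨t, by rw [← ht]; simp [Finset.image_insert, Finset.image_singleton]⟩

/-- option positions -/
def optPos (m : ℕ) (s : Z (2 * m)) : Prop := ∃ j, j < m ∧ s = ((6 * j : ℕ) : Z (2 * m))

theorem opt_succ (m : ℕ) (hm : 1 ≤ m) (s : Z (2 * m)) (h : optPos m s) : ¬ optPos m (s + 1) := by
  rintro ⟨i, hi, h2⟩
  obtain ⟨j, hj, rfl⟩ := h
  have h3 : ((6 * i : ℕ) : Z (2 * m)) = ((6 * j + 1 : ℕ) : Z (2 * m)) := by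
    rw [← h2]
    push_cast
    ring
  rcases cast_cases h3 (by omega) (by omega) (by omega) with h | h <;> omega

theorem not_optPos (i : Fin (vdata φ).length) (h : ¬ optPos φ.length (cp i)) :
    np i % 6 ≠ 0 ∨ np i = 6 * φ.length := by
  by_contra hc
  push Not at hc
  apply h
  have := np_lt i
  refine ⟨np i / 6, by omega, ?_⟩
  unfold cp
  congr 1
  omega

include hφ hG in
theorem sat_of_violated (I : Finset (Fin (vdata φ).length)) (hI : PartOn G I)
    (hv : ((G.induce (I : Set _)).indepNum : ℚ) < ∑ _i ∈ I, (1 / 3 : ℚ)) : Sat φ := by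
  classical
  have hl := len_pos hφ
  obtain ⟨α, ω, hα, hω, hcard, hP⟩ := hI
  have hne : I.Nonempty := by
    rw [← Finset.card_pos]
    omega
  obtain ⟨v, hvI⟩ := hne
  obtain ⟨⟨P, hPc, hPK⟩, ⟨Q, hQc, hQS⟩⟩ := hP v hvI
  -- ω ≤ 3
  have hω3 : ω ≤ 3 := by
    by_contra hc
    obtain ⟨K, hK⟩ : P.parts.Nonempty := by
      rw [← Finset.card_pos]
      omega
    exact (SimpleGraph.CliqueFree.mono (by omega : 4 ≤ ω) (cliqueFree hφ G hG)) K (hPK K hK)
  have hαle : α ≤ (G.induce (I : Set _)).indepNum := by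
    obtain ⟨S, hS⟩ : Q.parts.Nonempty := by
      rw [← Finset.card_pos]
      omega
    rw [← (hQS S hS).card_eq]
    exact le_indepNum G I ((Q.le hS).trans (Finset.erase_subset _ _)) (hQS S hS).isIndepSet
  have hω' : ω = 3 := by
    have h1 : (α : ℚ) < (I.card : ℚ) * (1 / 3) := by
      refine lt_of_le_of_lt (by exact_mod_cast hαle) (hv.trans_le ?_)
      simp
    have h2 : 3 * (α : ℚ) < (I.card : ℚ) := by linarith
    have h3 : 3 * α < I.card := by exact_mod_cast h2
    rw [hcard] at h3
    interval_cases ω <;> omega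
  subst hω'
  have hbij : Set.BijOn cp (I : Set (Fin (vdata φ).length)) Set.univ := by
    refine bij_of_partition G cp I (optPos φ.length) (fun K _ hK => triangle_pos hφ G hG K hK)
      ?_ (opt_succ φ.length hl) (by omega) (fun u hu => ?_) ?_
    · intro u v hu hv hno heq
      exact vd_inj u v (cp_eq.1 heq) (not_optPos u hno)
    · obtain ⟨⟨P', _, h2⟩, _⟩ := hP u hu
      exact ⟨P', h2⟩
    · have : 1 < I.card := by
        rw [hcard]
        nlinarith
      obtain ⟨a, ha, b, hb, hab⟩ := Finset.one_lt_card.1 this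
      exact ⟨a, ha, b, hb, hab⟩
  have hsurj : ∀ s : Z (2 * φ.length), ∃ u ∈ I, cp u = s := fun s => by
    obtain ⟨a, ha, h⟩ := hbij.2.2 (Set.mem_univ s)
    exact ⟨a, ha, h⟩
  -- the last vertex
  obtain ⟨v₀, hv₀, hpv₀⟩ := hsurj (-1)
  obtain ⟨_, ⟨Q', hQ'c, hQ'S⟩⟩ := hP v₀ hv₀
  -- the chosen options
  have hopt : ∀ j : ℕ, j < φ.length → ∃ u ∈ I, cp u = ((6 * j : ℕ) : Z (2 * φ.length)) := fun j _ =>
    hsurj _
  haveI : Nonempty (Fin (vdata φ).length) := ⟨v⟩
  choose! o hoI hocp using hopt
  have honp : ∀ j < φ.length, np (o j) = 6 * j := by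
    intro j hj
    have h1 := hocp j hj
    unfold cp at h1
    have h2 := np_lt (o j)
    rcases cast_cases h1 (by omega) (by omega) (by omega) with h | h <;> omega
  have hoo : ∀ j < φ.length, ((vdata φ).get (o j)).2.1 = true := by
    intro j hj
    by_contra hc
    rw [Bool.not_eq_true] at hc
    have h1 := vd_nonopt (List.get_mem _ (o j)) hc
    have h2 := honp j hj
    unfold np at h2
    omega
  have hnconf : ∀ i < φ.length, ∀ j < φ.length, ¬ Conf (o i) (o j) := by
    intro i hi j hj hc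
    have hadj : G.Adj (o i) (o j) := (adj_iff hφ G hG _ _).2 (Or.inr hc)
    refine same_color G cp I (by omega) hbij ?_ v₀ hpv₀ Q' hQ'c
      (fun S hS => (hQ'S S hS).isIndepSet) (2 * i) (2 * j) (by omega) (by omega) (o i) (o j)
      (hoI i hi) (hoI j hj) ?_ ?_ hadj
    · intro a _ b _ h
      rw [adj_iff hφ G hG]
      left
      unfold near
      tauto
    · rw [hocp i hi]
      congr 1
      ring
    · rw [hocp j hj]
      congr 1
      ring
  refine ⟨fun x => decide (∃ j < φ.length, ((vdata φ).get (o j)).2.2 = (true, x)), ?_⟩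
  intro c hc
  obtain ⟨j, hj, rfl⟩ := List.getElem_of_mem hc
  obtain ⟨j', c', hc', hj', hmem⟩ := vd_opt (List.get_mem _ (o j)) (hoo j hj)
  have hjj : j' = j := by
    have := honp j hj
    unfold np at this
    omega
  subst hjj
  rw [List.getElem?_eq_getElem hj] at hc'
  simp only [Option.some.injEq] at hc'
  subst hc'
  refine ⟨_, hmem, ?_⟩
  set l := ((vdata φ).get (o j')).2.2 with hl'
  obtain ⟨s, x⟩ := l
  simp only
  cases s with
  | true =>
    rw [decide_eq_true_eq]
    exact ⟨j', hj, hl'.symm⟩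
  | false =>
    rw [decide_eq_false_iff_not]
    rintro ⟨i, hi, h⟩
    apply hnconf i hi j' hj
    refine ⟨hoo i hi, hoo j' hj, ?_, ?_, ?_⟩
    · intro he
      have e1 : cp (o i) = cp (o j') := cp_eq.2 he
      have e2 := hbij.2.1 (hoI i hi) (hoI j' hj) e1
      rw [e2, ← hl'] at h
      simp at h
    · rw [h, ← hl']
    · rw [h, ← hl']
      simp

include hφ hG in
theorem violated_of_sat (hs : Sat φ) : ∃ I : Finset (Fin (vdata φ).length), PartOn G I ∧
    ((G.induce (I : Set _)).indepNum : ℚ) < ∑ _i ∈ I, (1 / 3 : ℚ) := by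
  classical
  have hl := len_pos hφ
  obtain ⟨ν, hν⟩ := hs
  have h1 : ∀ j < φ.length, ∃ u : Fin (vdata φ).length, np u = 6 * j ∧
      ((vdata φ).get u).2.1 = true ∧ ν ((vdata φ).get u).2.2.2 = ((vdata φ).get u).2.2.1 := by
    intro j hj
    obtain ⟨l, hl1, hl2⟩ := hν φ[j] (List.getElem_mem hj)
    obtain ⟨u, hu⟩ := vd_option (φ := φ) (List.getElem?_eq_getElem hj) hl1
    refine ⟨u, ?_, ?_, ?_⟩
    · unfold np; rw [hu]
    · rw [hu]
    · rw [hu]; exact hl2
  haveI : Nonempty (Fin (vdata φ).length) := by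
    obtain ⟨u, _⟩ := h1 0 (by omega)
    exact ⟨u⟩
  choose! o ho1 ho2 ho3 using h1
  let I : Finset (Fin (vdata φ).length) :=
    univ.filter (fun u => ((vdata φ).get u).2.1 = false ∨ ∃ j < φ.length, u = o j)
  have hmem : ∀ u, u ∈ I ↔ ((vdata φ).get u).2.1 = false ∨ ∃ j < φ.length, u = o j := by
    intro u
    simp [I]
  have hbij : Set.BijOn cp (I : Set (Fin (vdata φ).length)) Set.univ := by
    refine ⟨fun _ _ => Set.mem_univ _, ?_, ?_⟩
    · intro u hu v hv h
      rw [cp_eq] at h
      rw [Finset.mem_coe, hmem] at hu hv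
      rcases hu with hu | ⟨i, hi, rfl⟩
      · exact vd_inj u v h (vd_nonopt (List.get_mem _ u) hu)
      · rcases hv with hv | ⟨j, hj, rfl⟩
        · exact (vd_inj v (o i) h.symm (vd_nonopt (List.get_mem _ v) hv)).symm
        · rw [ho1 i hi, ho1 j hj] at h
          rw [show i = j by omega]
    · intro s _
      have hs : s = ((s.val : ℕ) : Z (2 * φ.length)) := by simp
      have hlt := s.val_lt
      by_cases hn : s.val % 6 ≠ 0 ∨ s.val = 6 * φ.length
      · obtain ⟨u, hu⟩ := vd_common (φ := φ) s.val (by omega) hn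
        refine ⟨u, ?_, ?_⟩
        · rw [Finset.mem_coe, hmem]
          left
          rw [hu]
        · unfold cp np
          rw [hu]
          exact hs.symm
      · push Not at hn
        refine ⟨o (s.val / 6), ?_, ?_⟩
        · rw [Finset.mem_coe, hmem]
          right
          exact ⟨_, by omega, rfl⟩
        · unfold cp
          rw [ho1 _ (by omega)]
          conv_rhs => rw [hs]
          congr 1
          omega
  have hA : ∀ u ∈ I, ∀ v ∈ I, G.Adj u v ↔ near (cp u) (cp v) := by
    intro u hu v hv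
    rw [adj_iff hφ G hG]
    constructor
    · rintro (h | h)
      · exact h
      · exfalso
        rw [hmem] at hu hv
        rcases hu with hu | ⟨i, hi, rfl⟩
        · rw [h.1] at hu
          exact absurd hu (by simp)
        · rcases hv with hv | ⟨j, hj, rfl⟩
          · rw [h.2.1] at hv
            exact absurd hv (by simp)
          · apply h.2.2.2.2
            rw [← ho3 i hi, ← ho3 j hj, h.2.2.2.1]
    · exact Or.inl
  have hcard : I.card = 3 * (2 * φ.length) + 1 := by
    have : I.image cp = univ := by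
      ext s
      simp only [mem_image, mem_univ, iff_true]
      obtain ⟨a, ha, h⟩ := hbij.2.2 (Set.mem_univ s)
      exact ⟨a, ha, h⟩
    rw [← Finset.card_image_of_injOn hbij.2.1, this, Finset.card_univ, ZMod.card]
  have hweb : ∀ v ∈ I, _ := fun v hv =>
    web_partitionable G cp I (k := 2 * φ.length) (by omega) hbij hA v hv
  refine ⟨I, ⟨2 * φ.length, 3, by omega, by omega, by rw [hcard]; ring, hweb⟩, ?_⟩
  have hind : (G.induce (I : Set _)).indepNum ≤ 2 * φ.length := by
    apply indepNum_le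
    intro S hS hi
    obtain ⟨v, hv, hvS⟩ : ∃ v ∈ I, v ∉ S := by
      by_contra hc
      push Not at hc
      obtain ⟨a, ha, hpa⟩ := hbij.2.2 (Set.mem_univ (0 : Z (2 * φ.length)))
      obtain ⟨b, hb, hpb⟩ := hbij.2.2 (Set.mem_univ (1 : Z (2 * φ.length)))
      have hadj : G.Adj a b := by
        rw [hA a ha b hb, hpa, hpb]
        left
        ring
      exact hi (hc a ha) (hc b hb) hadj.ne hadj
    obtain ⟨⟨P, hPc, hPK⟩, _⟩ := hweb v hv
    exact card_le_of_parts G I P hPc hPK hS hi hvS
  rw [Finset.sum_const, hcard, nsmul_eq_mul]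
  have : ((G.induce (I : Set _)).indepNum : ℚ) ≤ ((2 * φ.length : ℕ) : ℚ) := by exact_mod_cast hind
  push_cast at this ⊢
  linarith

end main

end Pool.Agent.H697R2.Part
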