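import Mathlib
import Pool.Agent.H697R2.Part.Main
import Pool.Agent.NPC.Sat
import Pool.Agent.H642R2.TMSim

set_option autoImplicit false

namespace Pool.Agent.H697R2.Part

open Pool.Agent.NPC

def edges (n : ℕ) (D : List VD) : List (ℕ × ℕ) :=
  D.zipIdx.flatMap (fun d => (D.zipIdx.filter (fun e => adjT n d.1 e.1)).map (fun e => (d.2, e.2)))

/-- the instance of a formula -/
def inst (φ : List (List (Bool × ℕ))) : List ℚ × List (ℕ × ℕ) :=
  ((vdata φ).map (fun _ => 1 / 3), edges (6 * φ.length + 1) (vdata φ))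

/-- add a tautological clause -/
def pad (φ : List (List (Bool × ℕ))) : List (List (Bool × ℕ)) :=
  φ ++ [[(true, 0), (false, 0)]]

theorem pad_ne (φ : List (List (Bool × ℕ))) : pad φ ≠ [] := by simp [pad]

theorem pad_sat (φ : List (List (Bool × ℕ))) : Sat (pad φ) ↔ Sat φ := by
  unfold Sat pad
  constructor
  · rintro ⟨ν, h⟩
    exact ⟨ν, fun c hc => h c (by simp [hc])⟩
  · rintro ⟨ν, h⟩
    refine ⟨ν, fun c hc => ?_⟩
    rcases List.mem_append.1 hc with hc | hc
    · exact h c hc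
    · rw [List.mem_singleton] at hc
      subst hc
      cases h0 : ν 0
      · exact ⟨(false, 0), by simp, h0⟩
      · exact ⟨(true, 0), by simp, h0⟩

theorem mem_edges {n : ℕ} {D : List VD} {a b : ℕ} : (a, b) ∈ edges n D ↔
    ∃ d e, D[a]? = some d ∧ D[b]? = some e ∧ adjT n d e = true := by
  simp only [edges, List.mem_flatMap, List.mem_map, List.mem_filter, Prod.mk.injEq]
  constructor
  · rintro ⟨⟨d, i⟩, h1, ⟨e, j⟩, ⟨h2, h3⟩, rfl, rfl⟩
    exact ⟨d, e, by simpa [List.mem_zipIdx_iff_getElem?] using h1,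
      by simpa [List.mem_zipIdx_iff_getElem?] using h2, h3⟩
  · rintro ⟨d, e, h1, h2, h3⟩
    exact ⟨(d, a), by simpa [List.mem_zipIdx_iff_getElem?] using h1, (e, b),
      ⟨by simpa [List.mem_zipIdx_iff_getElem?] using h2, h3⟩, rfl, rfl⟩

theorem adjT_symm (n : ℕ) (d e : VD) : adjT n d e = adjT n e d := by
  rw [Bool.eq_iff_iff]
  unfold adjT
  simp only [Bool.or_eq_true, nearN_iff, Bool.and_eq_true, Bool.not_eq_true', decide_eq_true_eq,
    decide_eq_false_iff_not, xor_true]
  constructor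
  · rintro (h | ⟨⟨h1, h2⟩, h3, h4, h5⟩)
    · left; omega
    · right; exact ⟨⟨h2, h1⟩, fun h => h3 h.symm, h4.symm, fun h => h5 h.symm⟩
  · rintro (h | ⟨⟨h1, h2⟩, h3, h4, h5⟩)
    · left; omega
    · right; exact ⟨⟨h2, h1⟩, fun h => h3 h.symm, h4.symm, fun h => h5 h.symm⟩

theorem adjT_irrefl {n : ℕ} (hn : 3 ≤ n) (d : VD) : adjT n d d = false := by
  rw [← Bool.not_eq_true]
  unfold adjT
  simp only [Bool.or_eq_true, nearN_iff, Bool.and_eq_true, Bool.not_eq_true', decide_eq_true_eq,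
    decide_eq_false_iff_not, xor_true]
  rintro (h | ⟨⟨h1, h2⟩, h3, h4, h5⟩)
  · omega
  · exact h5 rfl

theorem main_cast {φ : List (List (Bool × ℕ))} (hφ : φ ≠ []) {N : ℕ}
    (hN : N = (vdata φ).length) (G : SimpleGraph (Fin N))
    (hG : ∀ i j : Fin N, G.Adj i j ↔ i ≠ j ∧
      (((i : ℕ), (j : ℕ)) ∈ edges (6 * φ.length + 1) (vdata φ) ∨
        ((j : ℕ), (i : ℕ)) ∈ edges (6 * φ.length + 1) (vdata φ)))
    (x : Fin N → ℚ) (hx : ∀ i, x i = 1 / 3) :
    G.CliqueFree 4 ∧ (Sat φ ↔ ∃ I : Finset (Fin N), PartOn G I ∧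
      ((G.induce (I : Set (Fin N))).indepNum : ℚ) < ∑ i ∈ I, x i) := by
  subst hN
  have hl := len_pos hφ
  have hx' : x = fun _ => 1 / 3 := funext hx
  subst hx'
  have hG' : ∀ i j, G.Adj i j ↔
      adjT (6 * φ.length + 1) ((vdata φ).get i) ((vdata φ).get j) = true := by
    intro i j
    rw [hG, mem_edges, mem_edges]
    have ei : (vdata φ)[(i : ℕ)]? = some ((vdata φ).get i) := by simp
    have ej : (vdata φ)[(j : ℕ)]? = some ((vdata φ).get j) := by simp
    rw [ei, ej]
    constructor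
    · rintro ⟨_, ⟨d, e, h1, h2, h3⟩ | ⟨d, e, h1, h2, h3⟩⟩
      · rw [Option.some.injEq] at h1 h2
        rw [h1, h2]
        exact h3
      · rw [Option.some.injEq] at h1 h2
        rw [adjT_symm, h1, h2]
        exact h3
    · intro h
      refine ⟨?_, Or.inl ⟨_, _, rfl, rfl, h⟩⟩
      rintro rfl
      rw [adjT_irrefl (by omega)] at h
      simp at h
  refine ⟨cliqueFree hφ G hG', ?_⟩
  constructor
  · exact violated_of_sat hφ G hG'
  · rintro ⟨I, h1, h2⟩
    exact sat_of_violated hφ G hG' I h1 h2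

end Pool.Agent.H697R2.Part

/-! ### Polynomial time -/

namespace Pool.Agent.NPC.H697

open Pool.Agent.H697R2.Part

theorem nearN_poly {α : Type} [TEnc α] {n p q : α → ℕ} (hn : Poly n) (hp : Poly p) (hq : Poly q) :
    Poly (fun a => nearN (n a) (p a) (q a)) := by
  unfold nearN
  have h1 : Poly (fun _ : α => 1) := Poly.const _
  have h2 : Poly (fun _ : α => 2) := Poly.const _
  exact Poly.or (Poly.decide_eq hq (hp.add h1)) (Poly.or (Poly.decide_eq hq (hp.add h2))
    (Poly.or (Poly.decide_eq hp (hq.add h1)) (Poly.or (Poly.decide_eq hp (hq.add h2))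
      (Poly.or (Poly.decide_eq (hq.add hn) (hp.add h1)) (Poly.or
        (Poly.decide_eq (hq.add hn) (hp.add h2)) (Poly.or (Poly.decide_eq (hp.add hn) (hq.add h1))
          (Poly.decide_eq (hp.add hn) (hq.add h2))))))))

theorem adjT_poly {α : Type} [TEnc α] {n : α → ℕ} {d e : α → VD} (hn : Poly n) (hd : Poly d)
    (he : Poly e) : Poly (fun a => adjT (n a) (d a) (e a)) := by
  unfold adjT
  have hd2 := hd.snd
  have he2 := he.snd
  exact Poly.or (nearN_poly hn hd.fst he.fst) (Poly.and (Poly.and hd2.fst he2.fst)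
    (Poly.and (Poly.not (Poly.decide_eq hd.fst he.fst))
      (Poly.and (Poly.decide_eq hd2.snd.snd he2.snd.snd) (Poly.xor hd2.snd.fst he2.snd.fst))))

theorem edges_poly {α : Type} [TEnc α] {n : α → ℕ} {D : α → List VD} (hn : Poly n)
    (hD : Poly D) : Poly (fun a => edges (n a) (D a)) := by
  unfold edges
  refine Poly.flatMap (F := fun a d => ((D a).zipIdx.filter (fun e => adjT (n a) d.1 e.1)).map
    (fun e => (d.2, e.2))) hD.zipIdx ?_
  refine Poly.map (F := fun (p : α × VD × ℕ) (e : VD × ℕ) => (p.2.2, e.2)) ?_ ?_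
  · refine Poly.filter (p := fun (p : α × VD × ℕ) e => adjT (n p.1) p.2.1 e.1)
      (hD.zipIdx.comp (Poly.fst Poly.id)) ?_
    exact adjT_poly (hn.comp (Poly.fst (Poly.fst Poly.id))) (Poly.fst (Poly.snd (Poly.fst Poly.id)))
      (Poly.fst (Poly.snd Poly.id))
  · exact Poly.pair (Poly.snd (Poly.snd (Poly.fst Poly.id))) (Poly.snd (Poly.snd Poly.id))

theorem commons_poly {α : Type} [TEnc α] {m : α → ℕ} (hm : UPoly m) :
    Poly (fun a => commons (m a)) := by
  unfold commons
  refine Poly.map (F := fun _ p => ((p, false, false, 0) : VD)) ?_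
    (Poly.pair (Poly.snd Poly.id) (Poly.const _))
  refine Poly.filter (p := fun a p => (!(decide (p % 6 = 0)) || decide (p = 6 * m a)))
    (((UPoly.const 6).mul hm).add (UPoly.const 1)).range ?_
  refine Poly.or (Poly.not (Poly.decide_eq (Poly.mod (Poly.snd Poly.id) (Poly.const _))
    (Poly.const _))) (Poly.decide_eq (Poly.snd Poly.id) (Poly.mul (Poly.const _)
      (hm.toPoly.comp (Poly.fst Poly.id))))

theorem options_poly {α : Type} [TEnc α] {φ : α → List (List (Bool × ℕ))} (hφ : Poly φ) :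
    Poly (fun a => options (φ a)) := by
  unfold options
  refine Poly.flatMap (F := fun _ c => c.1.map (fun l => ((6 * c.2, true, l.1, l.2) : VD)))
    hφ.zipIdx ?_
  refine Poly.map (F := fun (p : α × List (Bool × ℕ) × ℕ) l =>
    ((6 * p.2.2, true, l.1, l.2) : VD)) (Poly.fst (Poly.snd Poly.id)) ?_
  exact Poly.pair (Poly.mul (Poly.const _) (Poly.snd (Poly.snd (Poly.fst Poly.id))))
    (Poly.pair (Poly.const _) (Poly.pair (Poly.fst (Poly.snd Poly.id))
      (Poly.snd (Poly.snd Poly.id))))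

theorem vdata_poly {α : Type} [TEnc α] {φ : α → List (List (Bool × ℕ))} (hφ : Poly φ) :
    Poly (fun a => vdata (φ a)) :=
  Poly.append (commons_poly (UPoly.length hφ)) (options_poly hφ)

theorem inst_poly {α : Type} [TEnc α] {φ : α → List (List (Bool × ℕ))} (hφ : Poly φ) :
    Poly (fun a => inst (φ a)) := by
  unfold inst
  refine Poly.pair (Poly.map (F := fun _ _ => (1 / 3 : ℚ)) (vdata_poly hφ) (Poly.const _))
    (edges_poly ?_ (vdata_poly hφ))
  exact Poly.add (Poly.mul (Poly.const _) (Poly.length hφ)) (Poly.const _)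

theorem pad_poly : Poly pad := Poly.append Poly.id (Poly.const _)

theorem red_poly : Poly (fun φ : List (List (Bool × ℕ)) => inst (pad φ)) := inst_poly pad_poly

/-- reductions from every language in `NP` -/
theorem hard_inst (L : Set (List Bool)) (hL : InNP L) :
    ∃ f : List Bool → List (List (Bool × ℕ)),
      PC (fun x : List Bool => x) (bits : List ℚ × List (ℕ × ℕ) → List Bool)
        (fun w => inst (pad (f w))) ∧ ∀ w, w ∈ L ↔ Sat (pad (f w)) := by
  obtain ⟨f, hf, h⟩ := hardI_SAT L hL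
  refine ⟨f, PC.comp (g := fun φ => inst (pad φ)) red_poly hf, fun w => ?_⟩
  rw [h w, pad_sat]
  rfl

end Pool.Agent.NPC.H697
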